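import Pool.Agent.N516.SC.Stm

/-!
# SC/GIR: girth and cyclic connectivity
-/

set_option autoImplicit false

namespace Pool.Agent.N558.SC

open Pool.Agent.N516.SC

namespace Gir

theorem two_vertices {V : Type} {G : SimpleGraph V} {v : V} (w : G.Walk v v) (hw : w.IsCycle) :
    ∃ a b, a ≠ b ∧ a ∈ w.support ∧ b ∈ w.support := by
  cases w with
  | nil => exact absurd hw SimpleGraph.Walk.not_isCycle_nil
  | cons h p => exact ⟨_, _, h.ne, by simp, by simp⟩

theorem girth {V : Type} {G : SimpleGraph V} (h3 : NoC3 G) (h4 : NoC4 G) :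
    GirthAtLeastFive G := by
  intro v w hw
  by_contra hlt
  have hl := hw.three_le_length
  have hn := hw.support_nodup
  rcases w with _ | ⟨e1, w⟩
  · simp at hl
  rcases w with _ | ⟨e2, w⟩
  · simp at hl
  rcases w with _ | ⟨e3, w⟩
  · simp at hl
  rcases w with _ | ⟨e4, w⟩
  · exact h3 _ _ _ e1 e2 e3.symm
  rcases w with _ | ⟨e5, w⟩
  · simp only [SimpleGraph.Walk.support_cons, SimpleGraph.Walk.support_nil, List.tail_cons,
      List.nodup_cons, List.mem_cons, List.not_mem_nil, not_or] at hn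
    exact h4 _ _ _ _ (fun h => hn.2.1.2.1 h.symm) (fun h => hn.1.2.1 h) e1 e2 e3 e4
  · simp only [SimpleGraph.Walk.length_cons] at hlt
    omega

end Gir

theorem t_GIR : S_GIR := by
  intro V _ G hG
  classical
  refine ⟨Gir.girth hG.c3 hG.c4, ?_⟩
  rintro S ⟨v, w, hw, hin⟩ ⟨v', w', hw', hout⟩
  obtain ⟨a, b, hab, ha, hb⟩ := Gir.two_vertices w hw
  obtain ⟨a', b', hab', ha', hb'⟩ := Gir.two_vertices w' hw'
  have h := hG.cut4 (fun u => decide (u ∈ S)) ⟨a, b, hab, by simpa using hin a ha,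
    by simpa using hin b hb⟩ ⟨a', b', hab', by simpa using hout a' ha', by simpa using hout b' hb'⟩
  refine h.trans (le_of_eq ?_)
  unfold cut
  rw [← Finset.sum_product', ← Finset.card_filter, Set.ncard_eq_toFinset_card']
  congr 1
  ext e
  simp

end Pool.Agent.N558.SC
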